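import Pool.Agent.Mob.Stmts

/-!
# The finite volume criterion implies exponential decay in the bulk
-/

set_option autoImplicit false
set_option linter.unusedSectionVars false

open MeasureTheory ProbabilityTheory Function

open scoped ENNReal BigOperators

noncomputable section

namespace Pool.Agent.Mob.H33

open Pool.Agent.Anderson Pool.Agent.Loc Pool.Agent.Mob

variable {d : ℕ} {ν : Measure ℝ} [IsProbabilityMeasure ν] {ρ : ℝ}

theorem marg_p8 (hν : BddDens ν ρ) (V : Site d → ℝ) (Λ : Finset (Site d)) (E : ℝ)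
    (x y : Site d) :
    (∫⋯∫⁻_{x, y}, pg Λ E x y ∂(fun _ => ν)) V ≤ ENNReal.ofReal (1 + 2 * √(6 * ρ)) := by
  have hm : Measurable fun V : Site d → ℝ => ENNReal.ofReal (√|gr V Λ E x y|) :=
    measurable_qg Λ E x y
  have h1 : pg Λ E x y ≤ fun V : Site d → ℝ => 1 + ENNReal.ofReal (√|gr V Λ E x y|) := by
    intro V
    exact p8_le _
  refine (lmarginal_mono h1 V).trans ?_
  rw [marg_add measurable_const, marg_free (f := fun _ => 1) (fun _ _ _ => rfl),
    ENNReal.ofReal_add (by norm_num) (by positivity), ENNReal.ofReal_one]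
  gcongr
  exact marg_sqrt hν V Λ E x y

theorem PL_p8 (hν : BddDens ν ρ) (Λ : Finset (Site d)) (E : ℝ) (x y : Site d) :
    ∫⁻ V, pg Λ E x y V ∂(PL ν Λ) ≤ ENNReal.ofReal (1 + 2 * √(6 * ρ)) := by
  have h1 : ∀ V, pg Λ E x y V ≤ 1 + ENNReal.ofReal (√|gr V Λ E x y|) := fun V => p8_le _
  refine (lintegral_mono h1).trans ?_
  rw [lintegral_add_left measurable_const, lintegral_const, measure_univ, mul_one,
    ENNReal.ofReal_add (by norm_num) (by positivity), ENNReal.ofReal_one]
  gcongr
  exact PL_sqrt hν Λ E x y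

theorem p8_hop_mul (hd : 1 ≤ d) (a b a' b' : Site d) :
    p8 (hop a b) * p8 (hop a' b') ≤ ENNReal.ofReal (2 * d) := by
  unfold p8
  rw [← ENNReal.ofReal_mul (by positivity)]
  apply ENNReal.ofReal_le_ofReal
  rw [abs_of_nonneg (hop_nonneg a b), abs_of_nonneg (hop_nonneg a' b')]
  have h1 : (hop a b) ^ (1 / 8 : ℝ) ≤ (2 * d : ℝ) ^ (1 / 8 : ℝ) :=
    Real.rpow_le_rpow (hop_nonneg _ _) (hop_le a b) (by norm_num)
  have h2 : (hop a' b') ^ (1 / 8 : ℝ) ≤ (2 * d : ℝ) ^ (1 / 8 : ℝ) :=
    Real.rpow_le_rpow (hop_nonneg _ _) (hop_le a' b') (by norm_num)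
  have hd' : (1 : ℝ) ≤ 2 * d := by
    have : (1 : ℝ) ≤ d := by exact_mod_cast hd
    linarith
  have h0 : (0 : ℝ) < 2 * d := by linarith
  calc _ ≤ (2 * d : ℝ) ^ (1 / 8 : ℝ) * (2 * d : ℝ) ^ (1 / 8 : ℝ) :=
        mul_le_mul h1 h2 (Real.rpow_nonneg (hop_nonneg _ _) _) (by positivity)
    _ = (2 * d : ℝ) ^ (1 / 4 : ℝ) := by
        rw [← Real.rpow_add h0]
        norm_num
    _ ≤ (2 * d : ℝ) ^ (1 : ℝ) := Real.rpow_le_rpow_of_exponent_le hd' (by norm_num)
    _ = 2 * d := Real.rpow_one _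

/-- The pointwise inequality behind the criterion. -/
theorem pg_step (hd : 1 ≤ d) {V : Site d → ℝ} {Λ : Finset (Site d)} {E : ℝ} {L : ℕ} {x y : Site d}
    (hx : x ∈ Λ) (hy : y ∈ Λ) (hxy : L + 2 ≤ sd x y)
    (h1 : (RM V (Λ ∩ box x L) E).det ≠ 0) (h2 : (RM V (Λ \ (Λ ∩ box x (L + 1))) E).det ≠ 0) :
    pg Λ E x y V ≤ ENNReal.ofReal (2 * d) *
      ∑ u ∈ (Λ ∩ box x L).filter (fun u => sd x u = L),
        ∑ u' ∈ (Λ ∩ box x (L + 1)) \ (Λ ∩ box x L),
          ∑ v ∈ (Λ ∩ box x (L + 1)) \ (Λ ∩ box x L),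
            ∑ v' ∈ (Λ \ (Λ ∩ box x (L + 1))) ∩ box x (L + 2),
              pg (Λ ∩ box x L) E x u V * pg (Λ \ (Λ ∩ box x (L + 1))) E v' y V *
                pg Λ E u' v V := by
  by_cases hdet : (RM V Λ E).det = 0
  · have : gr V Λ E x y = 0 := by
      by_contra hne
      exact (gr_ne_zero hne).2.2 hdet
    unfold pg
    rw [this, p8_zero]
    exact zero_le
  set W := Λ ∩ box x L with hW
  set W' := Λ ∩ box x (L + 1) with hW'
  have hWW' : W ⊆ W' := Finset.inter_subset_inter_left (box_mono x (by omega))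
  have hxW : x ∈ W := by
    rw [hW, Finset.mem_inter, mem_box, sd_self]; exact ⟨hx, by omega⟩
  have hyW' : y ∈ Λ \ W' := by
    rw [Finset.mem_sdiff, hW', Finset.mem_inter, mem_box]
    exact ⟨hy, fun h => by omega⟩
  have hyW : y ∈ Λ \ W := by
    rw [Finset.mem_sdiff] at *
    exact ⟨hy, fun h => hyW'.2 (hWW' h)⟩
  have g1 : gr V Λ E x y = ∑ u ∈ W.filter (fun u => sd x u = L), ∑ u' ∈ W' \ W,
      gr V W E x u * hop u u' * gr V Λ E u' y := by
    rw [geo1 Finset.inter_subset_left hdet h1 hxW hyW, ← hW]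
    have hz : ∀ u ∈ W, ∀ u' ∈ Λ \ W, hop u u' ≠ 0 → sd x u = L ∧ u' ∈ W' \ W := by
      intro u hu u' hu' hne
      have h3 := sd_of_hop hne
      rw [hW, Finset.mem_inter, mem_box] at hu
      rw [Finset.mem_sdiff, hW, Finset.mem_inter, mem_box] at hu'
      have h4 := sd_triangle x u u'
      have h5 : ¬ sd x u' ≤ L := fun h => hu'.2 ⟨hu'.1, h⟩
      refine ⟨by omega, ?_⟩
      rw [Finset.mem_sdiff, hW', hW, Finset.mem_inter, mem_box, Finset.mem_inter, mem_box]
      exact ⟨⟨hu'.1, by omega⟩, fun h => h5 h.2⟩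
    have s1 : ∀ u ∈ W, ∑ u' ∈ Λ \ W, gr V W E x u * hop u u' * gr V Λ E u' y =
        if sd x u = L then ∑ u' ∈ W' \ W, gr V W E x u * hop u u' * gr V Λ E u' y else 0 := by
      intro u hu
      by_cases hL : sd x u = L
      · rw [if_pos hL]
        symm
        apply Finset.sum_subset
        · exact Finset.sdiff_subset_sdiff Finset.inter_subset_left le_rfl
        · intro u' hu' hu''
          have : hop u u' = 0 := by
            by_contra hne
            exact hu'' (hz u hu u' hu' hne).2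
          rw [this]; ring
      · rw [if_neg hL]
        apply Finset.sum_eq_zero
        intro u' hu'
        have : hop u u' = 0 := by
          by_contra hne
          exact hL (hz u hu u' hu' hne).1
        rw [this]; ring
    rw [Finset.sum_congr rfl s1, Finset.sum_filter]
  have g2 : ∀ u' ∈ W' \ W, gr V Λ E u' y = ∑ v ∈ W' \ W, ∑ v' ∈ (Λ \ W') ∩ box x (L + 2),
      gr V Λ E u' v * hop v v' * gr V (Λ \ W') E v' y := by
    intro u' hu'
    rw [geo2 Finset.inter_subset_left hdet h2 (Finset.mem_sdiff.1 hu').1 hyW', ← hW']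
    have hz : ∀ v ∈ W', ∀ v' ∈ Λ \ W', hop v v' ≠ 0 → v ∈ W' \ W ∧ v' ∈ box x (L + 2) := by
      intro v hv v' hv' hne
      have h3 := sd_of_hop hne
      have hv0 := hv
      rw [hW', Finset.mem_inter, mem_box] at hv
      rw [Finset.mem_sdiff, hW', Finset.mem_inter, mem_box] at hv'
      have h4 := sd_triangle x v v'
      have h5 : ¬ sd x v' ≤ L + 1 := fun h => hv'.2 ⟨hv'.1, h⟩
      refine ⟨?_, by rw [mem_box]; omega⟩
      rw [Finset.mem_sdiff]
      refine ⟨hv0, fun h => ?_⟩
      rw [hW, Finset.mem_inter, mem_box] at h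
      omega
    have s1 : ∀ v ∈ W', ∑ v' ∈ Λ \ W', gr V Λ E u' v * hop v v' * gr V (Λ \ W') E v' y =
        ∑ v' ∈ (Λ \ W') ∩ box x (L + 2), gr V Λ E u' v * hop v v' * gr V (Λ \ W') E v' y := by
      intro v hv
      symm
      apply Finset.sum_subset Finset.inter_subset_left
      intro v' hv' hv''
      have : hop v v' = 0 := by
        by_contra hne
        exact hv'' (Finset.mem_inter.2 ⟨hv', (hz v hv v' hv' hne).2⟩)
      rw [this]; ring
    rw [Finset.sum_congr rfl s1]
    symm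
    apply Finset.sum_subset Finset.sdiff_subset
    intro v hv hv''
    apply Finset.sum_eq_zero
    intro v' hv'
    have : hop v v' = 0 := by
      by_contra hne
      exact hv'' (hz v hv v' (Finset.mem_inter.1 hv').1 hne).1
    rw [this]; ring
  have g3 : gr V Λ E x y = ∑ u ∈ W.filter (fun u => sd x u = L), ∑ u' ∈ W' \ W,
      ∑ v ∈ W' \ W, ∑ v' ∈ (Λ \ W') ∩ box x (L + 2),
        gr V W E x u * hop u u' * (gr V Λ E u' v * hop v v' * gr V (Λ \ W') E v' y) := by
    rw [g1]
    apply Finset.sum_congr rfl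
    intro u _
    apply Finset.sum_congr rfl
    intro u' hu'
    rw [g2 u' hu', Finset.mul_sum]
    apply Finset.sum_congr rfl
    intro v _
    rw [Finset.mul_sum]
  unfold pg
  rw [g3, Finset.mul_sum]
  refine (p8_sum _ _).trans (Finset.sum_le_sum fun u _ => ?_)
  rw [Finset.mul_sum]
  refine (p8_sum _ _).trans (Finset.sum_le_sum fun u' _ => ?_)
  rw [Finset.mul_sum]
  refine (p8_sum _ _).trans (Finset.sum_le_sum fun v _ => ?_)
  rw [Finset.mul_sum]
  refine (p8_sum _ _).trans (Finset.sum_le_sum fun v' _ => ?_)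
  rw [p8_mul, p8_mul, p8_mul, p8_mul]
  calc _ = (p8 (hop u u') * p8 (hop v v')) *
        (p8 (gr V W E x u) * p8 (gr V (Λ \ W') E v' y) * p8 (gr V Λ E u' v)) := by ring
    _ ≤ _ := by
        gcongr
        exact p8_hop_mul hd _ _ _ _

theorem term_bound' (hν : BddDens ν ρ) {Λ A B : Finset (Site d)} (hA : A ⊆ Λ) (hB : B ⊆ Λ)
    (hAB : Disjoint A B) (E : ℝ) (x u v' y : Site d) {u' v : Site d}
    (hu' : u' ∈ Λ) (hu'A : u' ∉ A) (hu'B : u' ∉ B) (hv : v ∈ Λ) (hvA : v ∉ A) (hvB : v ∉ B) :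
    ∫⁻ V, pg A E x u V * pg B E v' y V * pg Λ E u' v V ∂(PL ν Λ) ≤
      (∫⁻ V, pg A E x u V ∂(PL ν A)) * (∫⁻ V, pg B E v' y V ∂(PL ν B)) *
        ENNReal.ofReal (1 + 2 * √(6 * ρ)) := by
  set S : Finset (Site d) := {u', v} with hS
  have hSΛ : S ⊆ Λ := by
    intro z hz
    simp only [hS, Finset.mem_insert, Finset.mem_singleton] at hz
    rcases hz with rfl | rfl <;> assumption
  have hAS : Disjoint A S := by
    rw [Finset.disjoint_right]
    intro z hz
    simp only [hS, Finset.mem_insert, Finset.mem_singleton] at hz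
    rcases hz with rfl | rfl <;> assumption
  have hBS : Disjoint B S := by
    rw [Finset.disjoint_right]
    intro z hz
    simp only [hS, Finset.mem_insert, Finset.mem_singleton] at hz
    rcases hz with rfl | rfl <;> assumption
  have mA := measurable_pg A E x u
  have mB := measurable_pg B E v' y
  have mC := measurable_pg Λ E u' v
  have mAB : Measurable fun V => pg A E x u V * pg B E v' y V := mA.mul mB
  have mABC : Measurable fun V => pg A E x u V * pg B E v' y V * pg Λ E u' v V := mAB.mul mC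
  rw [lintegral_PL _ mABC, lintegral_PL _ mA, lintegral_PL _ mB]
  have e0 : (∫⋯∫⁻_Λ, (fun V => pg A E x u V * pg B E v' y V * pg Λ E u' v V) ∂(fun _ => ν)) 0 =
      (∫⋯∫⁻_(Λ \ S), (∫⋯∫⁻_S, (fun V => pg A E x u V * pg B E v' y V * pg Λ E u' v V)
        ∂(fun _ => ν)) ∂(fun _ => ν)) 0 := by
    rw [← lmarginal_union _ _ mABC Finset.sdiff_disjoint, Finset.sdiff_union_of_subset hSΛ]
  rw [e0]
  have hfree : Free (fun V => pg A E x u V * pg B E v' y V) S := by
    intro V V' h
    have h1 := (only_pg A E x u).free hAS V V' h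
    have h2 := (only_pg B E v' y).free hBS V V' h
    beta_reduce
    rw [h1, h2]
  have e1 : (∫⋯∫⁻_S, (fun V => pg A E x u V * pg B E v' y V * pg Λ E u' v V) ∂(fun _ => ν)) =
      fun V => (pg A E x u V * pg B E v' y V) * (∫⋯∫⁻_S, pg Λ E u' v ∂(fun _ => ν)) V :=
    marg_mul_left hfree mC
  rw [e1]
  have e2 : (fun V => (pg A E x u V * pg B E v' y V) * (∫⋯∫⁻_S, pg Λ E u' v ∂(fun _ => ν)) V) ≤
      fun V => ENNReal.ofReal (1 + 2 * √(6 * ρ)) * (pg A E x u V * pg B E v' y V) := by
    intro V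
    beta_reduce
    rw [mul_comm (ENNReal.ofReal (1 + 2 * √(6 * ρ)))]
    gcongr
    exact marg_p8 hν V Λ E u' v
  refine (lmarginal_mono e2 0).trans ?_
  rw [marg_const_mul _ mAB, marg_mul mA mB (only_pg A E x u) (only_pg B E v' y) hAB]
  · rw [mul_comm]
  · intro z hz
    rw [Finset.mem_sdiff]
    rcases Finset.mem_union.1 hz with h | h
    · exact ⟨hA h, Finset.disjoint_left.1 hAS h⟩
    · exact ⟨hB h, Finset.disjoint_left.1 hBS h⟩

/-- One step of the criterion, in a set `Λ` which contains the cube of radius `L + 1`. -/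
theorem bulk_step (hd : 1 ≤ d) (hν : BddDens ν ρ) {L : ℕ} {ε E : ℝ} (hinit : BulkInit d ν L ε E)
    {Λ : Finset (Site d)} {x y : Site d} (hbox : box x (L + 1) ⊆ Λ) (hy : y ∈ Λ)
    (hxy : L + 2 ≤ sd x y)
    {F : ℝ≥0∞} (hF : ∀ v' ∈ Λ \ box x (L + 1), sd x v' ≤ L + 2 →
      ∫⁻ V, pg (Λ \ box x (L + 1)) E v' y V ∂(PL ν (Λ \ box x (L + 1))) ≤ F) :
    ∫⁻ V, pg Λ E x y V ∂(PL ν Λ) ≤ ENNReal.ofReal (2 * d) * (((2 * L + 5) ^ d) ^ 4 : ℕ) *
      (ENNReal.ofReal ε * F * ENNReal.ofReal (1 + 2 * √(6 * ρ))) := by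
  have hx : x ∈ Λ := hbox (by rw [mem_box, sd_self]; omega)
  have hboxL : box x L ⊆ Λ := (box_mono x (by omega)).trans hbox
  have eW : Λ ∩ box x L = box x L := Finset.inter_eq_right.2 hboxL
  have eW' : Λ ∩ box x (L + 1) = box x (L + 1) := Finset.inter_eq_right.2 hbox
  set W := box x L with hW
  set W' := box x (L + 1) with hW'
  have hWW' : W ⊆ W' := box_mono x (by omega)
  have hyW' : y ∈ Λ \ W' := by
    rw [Finset.mem_sdiff, hW', mem_box]
    exact ⟨hy, fun h => by omega⟩
  have n1 := PL_det hν W Λ hboxL E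
  have n2 := PL_det hν (Λ \ W') Λ Finset.sdiff_subset E
  have hae : ∀ᵐ V ∂(PL ν Λ), pg Λ E x y V ≤ ENNReal.ofReal (2 * d) *
      ∑ u ∈ W.filter (fun u => sd x u = L), ∑ u' ∈ W' \ W, ∑ v ∈ W' \ W,
        ∑ v' ∈ (Λ \ W') ∩ box x (L + 2),
          pg W E x u V * pg (Λ \ W') E v' y V * pg Λ E u' v V := by
    have n1' : ∀ᵐ V ∂(PL ν Λ), (RM V W E).det ≠ 0 := by
      rw [ae_iff]; simpa using n1
    have n2' : ∀ᵐ V ∂(PL ν Λ), (RM V (Λ \ W') E).det ≠ 0 := by
      rw [ae_iff]; simpa using n2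
    filter_upwards [n1', n2'] with V h1 h2
    have h3 := pg_step hd (V := V) (E := E) (L := L) hx hy hxy
    rw [eW, eW'] at h3
    exact h3 h1 h2
  have mt : ∀ u u' v v' : Site d, Measurable fun V =>
      pg W E x u V * pg (Λ \ W') E v' y V * pg Λ E u' v V := fun u u' v v' =>
    ((measurable_pg _ _ _ _).mul (measurable_pg _ _ _ _)).mul (measurable_pg _ _ _ _)
  refine (lintegral_mono_ae hae).trans ?_
  rw [lintegral_const_mul _ (Finset.measurable_sum _ fun u _ => Finset.measurable_sum _ fun u' _ =>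
    Finset.measurable_sum _ fun v _ => Finset.measurable_sum _ fun v' _ => mt u u' v v'),
    mul_assoc]
  gcongr
  rw [lintegral_finsetSum _ fun u _ => Finset.measurable_sum _ fun u' _ =>
    Finset.measurable_sum _ fun v _ => Finset.measurable_sum _ fun v' _ => mt u u' v v']
  set Cst := ENNReal.ofReal ε * F * ENNReal.ofReal (1 + 2 * √(6 * ρ)) with hCst
  have hcard1 : (W.filter (fun u => sd x u = L)).card ≤ (2 * L + 5) ^ d := by
    have h1 : (W.filter (fun u => sd x u = L)).card ≤ (box x (L + 2)).card := by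
      apply Finset.card_le_card
      exact (Finset.filter_subset _ _).trans (box_mono x (by omega))
    rw [card_box] at h1
    exact h1
  have hcard2 : (W' \ W).card ≤ (2 * L + 5) ^ d := by
    have h1 : (W' \ W).card ≤ (box x (L + 2)).card := by
      apply Finset.card_le_card
      exact (Finset.sdiff_subset).trans (box_mono x (by omega))
    rw [card_box] at h1
    exact h1
  have hcard3 : ((Λ \ W') ∩ box x (L + 2)).card ≤ (2 * L + 5) ^ d := by
    have h1 : ((Λ \ W') ∩ box x (L + 2)).card ≤ (box x (L + 2)).card :=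
      Finset.card_le_card Finset.inter_subset_right
    rw [card_box] at h1
    exact h1
  have hb : ∀ u ∈ W.filter (fun u => sd x u = L), ∀ u' ∈ W' \ W, ∀ v ∈ W' \ W,
      ∀ v' ∈ (Λ \ W') ∩ box x (L + 2),
      ∫⁻ V, pg W E x u V * pg (Λ \ W') E v' y V * pg Λ E u' v V ∂(PL ν Λ) ≤ Cst := by
    intro u hu u' hu' v hv v' hv'
    rw [Finset.mem_filter] at hu
    rw [Finset.mem_sdiff] at hu' hv
    rw [Finset.mem_inter, mem_box] at hv'
    have hdisj : Disjoint W (Λ \ W') := by
      rw [Finset.disjoint_left]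
      intro z hz hz'
      exact (Finset.mem_sdiff.1 hz').2 (hWW' hz)
    refine (term_bound' hν (Λ := Λ) (A := W) (B := Λ \ W') hboxL
      Finset.sdiff_subset hdisj E x u v' y
      (hbox hu'.1) hu'.2 (fun h => (Finset.mem_sdiff.1 h).2 hu'.1)
      (hbox hv.1) hv.2 (fun h => (Finset.mem_sdiff.1 h).2 hv.1)).trans ?_
    rw [hCst]
    gcongr
    · exact hinit x u hu.2
    · exact hF v' hv'.1 hv'.2
  calc _ ≤ ∑ _u ∈ W.filter (fun u => sd x u = L), (((2 * L + 5) ^ d) ^ 3 : ℕ) * Cst := by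
        apply Finset.sum_le_sum
        intro u hu
        rw [lintegral_finsetSum _ fun u' _ =>
          Finset.measurable_sum _ fun v _ => Finset.measurable_sum _ fun v' _ => mt u u' v v']
        calc _ ≤ ∑ _u' ∈ W' \ W, (((2 * L + 5) ^ d) ^ 2 : ℕ) * Cst := by
              apply Finset.sum_le_sum
              intro u' hu'
              rw [lintegral_finsetSum _ fun v _ => Finset.measurable_sum _ fun v' _ => mt u u' v v']
              calc _ ≤ ∑ _v ∈ W' \ W, (((2 * L + 5) ^ d) : ℕ) * Cst := by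
                    apply Finset.sum_le_sum
                    intro v hv
                    rw [lintegral_finsetSum _ fun v' _ => mt u u' v v']
                    refine (Finset.sum_le_sum fun v' hv' => hb u hu u' hu' v hv v' hv').trans ?_
                    rw [Finset.sum_const, nsmul_eq_mul]
                    gcongr
                _ ≤ _ := by
                    rw [Finset.sum_const, nsmul_eq_mul, ← mul_assoc]
                    gcongr
                    rw [pow_two]
                    push_cast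
                    gcongr
                    exact_mod_cast hcard2
          _ ≤ _ := by
              rw [Finset.sum_const, nsmul_eq_mul, ← mul_assoc]
              gcongr
              rw [show ((2 * L + 5) ^ d) ^ 3 = (2 * L + 5) ^ d * ((2 * L + 5) ^ d) ^ 2 by ring]
              push_cast
              gcongr
              exact_mod_cast hcard2
    _ ≤ _ := by
        rw [Finset.sum_const, nsmul_eq_mul, ← mul_assoc]
        gcongr
        rw [show ((2 * L + 5) ^ d) ^ 4 = (2 * L + 5) ^ d * ((2 * L + 5) ^ d) ^ 3 by ring]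
        push_cast
        gcongr
        exact_mod_cast hcard1

/-- BLK: the criterion implies exponential decay in the bulk. -/
theorem blk (ret : RetStmt) : BlkStmt := by
  intro d hd
  obtain ⟨C₁, hC₁, hret⟩ := ret d hd
  refine ⟨12 * d * C₁ + 6, by positivity, ?_⟩
  intro σ hσ E L hcrit
  obtain ⟨ε, hε, hcr, hinit⟩ := hcrit
  have hν := bddDens_gl hσ
  set s : ℝ := 1 + 1 / |σ| with hs
  have hσ' : 0 < |σ| := abs_pos.2 hσ
  have hs1 : 1 ≤ s := by
    rw [hs]
    have : 0 < 1 / |σ| := by positivity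
    linarith
  have hs0 : 0 ≤ s := by linarith
  set CA : ℝ := 1 + 2 * √(6 * (1 / |σ|)) with hCA
  have hsq1 : 1 ≤ √s := Real.one_le_sqrt.2 hs1
  have hsqs : √s ≤ s := by
    rw [Real.sqrt_le_left hs0]
    nlinarith
  have hCA6 : CA ≤ 6 * √s := by
    have h1 : √(6 * (1 / |σ|)) ≤ √(6 * s) := by
      apply Real.sqrt_le_sqrt
      rw [hs]; linarith
    have h2 : √(6 * s) = √6 * √s := Real.sqrt_mul (by norm_num) _
    have h3 : √(6:ℝ) ≤ 5 / 2 := by
      rw [Real.sqrt_le_left (by norm_num)]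
      norm_num
    rw [hCA]
    nlinarith [Real.sqrt_nonneg s]
  have hCA0 : 0 ≤ CA := by rw [hCA]; positivity
  have hpow : s ^ (1 / 2 : ℝ) = √s := (Real.sqrt_eq_rpow s).symm
  have key : ∀ (R k : ℕ) (c w y : Site d), sd c w + k * (L + 2) ≤ R → y ∈ box c R →
      k * (L + 2) ≤ sd w y →
      ∫⁻ V, pg (box c R) E w y V ∂(PL (gl σ) (box c R)) ≤ ENNReal.ofReal (CA * Real.exp (-k)) := by
    intro R k
    induction k with
    | zero =>
      intro c w y _ _ _
      refine (PL_p8 hν (box c R) E w y).trans (ENNReal.ofReal_le_ofReal ?_)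
      simp [hCA]
    | succ k ih =>
      intro c w y hcw hy hwy
      rw [add_mul, one_mul] at hcw hwy
      have hbox : box w (L + 1) ⊆ box c R := by
        intro z hz
        rw [mem_box] at hz ⊢
        have := sd_triangle c w z
        omega
      have hwy' : L + 2 ≤ sd w y := by omega
      have hyd : y ∈ box c R \ box w (L + 1) := by
        rw [Finset.mem_sdiff, mem_box (x := w)]
        exact ⟨hy, fun h => by omega⟩
      have hF : ∀ v' ∈ box c R \ box w (L + 1), sd w v' ≤ L + 2 →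
          ∫⁻ V, pg (box c R \ box w (L + 1)) E v' y V ∂(PL (gl σ) (box c R \ box w (L + 1))) ≤
            ENNReal.ofReal (C₁ * (1 + 1 / |σ|) ^ (1 / 2 : ℝ) * (2 * L + 5) ^ (2 * d)) *
              ENNReal.ofReal (CA * Real.exp (-k)) := by
        intro v' hv' hwv'
        apply hret σ hσ E L R c w y v' _ (by omega) hyd hv' hwv'
        intro t ht hwt
        apply ih c t y _ hy
        · have := sd_triangle w t y
          omega
        · have := sd_triangle c w t
          omega
      have h1 := bulk_step hd hν hinit hbox hy hwy' hF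
      refine h1.trans ?_
      rw [← hs, hpow, ← hCA, ← ENNReal.ofReal_natCast, ← ENNReal.ofReal_mul (by positivity),
        ← ENNReal.ofReal_mul (by positivity), ← ENNReal.ofReal_mul hε,
        ← ENNReal.ofReal_mul (by positivity), ← ENNReal.ofReal_mul (by positivity)]
      apply ENNReal.ofReal_le_ofReal
      push_cast
      have e1 : Real.exp (-((k:ℝ) + 1)) = Real.exp (-k) * Real.exp (-1) := by
        rw [← Real.exp_add]; congr 1; ring
      rw [e1]
      have h2 : 12 * d * C₁ * s * (2 * L + 5) ^ (6 * d) * ε ≤ Real.exp (-1) := by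
        refine le_trans ?_ hcr
        have : (12 * d * C₁ : ℝ) ≤ 12 * d * C₁ + 6 := by linarith
        gcongr
      have h3 : 2 * (d:ℝ) * ((2 * L + 5) ^ d) ^ 4 *
          (ε * (C₁ * √s * (2 * L + 5) ^ (2 * d) * (CA * Real.exp (-k))) * CA) =
          (2 * d * C₁ * (√s * CA) * (2 * L + 5) ^ (6 * d) * ε) * (CA * Real.exp (-k)) := by
        have e2 : ((2 * (L:ℝ) + 5) ^ d) ^ 4 = (2 * L + 5) ^ (4 * d) := by
          rw [← pow_mul, mul_comm d 4]
        have e3 : (2 * (L:ℝ) + 5) ^ (6 * d) = (2 * L + 5) ^ (4 * d) * (2 * L + 5) ^ (2 * d) := by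
          rw [← pow_add]; congr 1; ring
        rw [e2, e3]; ring
      rw [h3]
      have h4 : √s * CA ≤ 6 * s := by
        calc √s * CA ≤ √s * (6 * √s) := mul_le_mul_of_nonneg_left hCA6 (Real.sqrt_nonneg _)
          _ = 6 * (√s * √s) := by ring
          _ = 6 * s := by rw [Real.mul_self_sqrt hs0]
      have h5 : 2 * d * C₁ * (√s * CA) * (2 * L + 5) ^ (6 * d) * ε ≤ Real.exp (-1) := by
        refine le_trans ?_ h2
        have e4 : 12 * d * C₁ * s * (2 * (L:ℝ) + 5) ^ (6 * d) * ε =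
            2 * d * C₁ * (6 * s) * (2 * L + 5) ^ (6 * d) * ε := by ring
        rw [e4]
        gcongr
      calc _ ≤ Real.exp (-1) * (CA * Real.exp (-k)) :=
            mul_le_mul_of_nonneg_right h5 (by positivity)
        _ = _ := by ring
  intro R k c w y h1 h2 h3
  refine (key R k c w y h1 h2 h3).trans (ENNReal.ofReal_le_ofReal ?_)
  apply mul_le_mul_of_nonneg_right _ (Real.exp_pos _).le
  have h6 : CA ≤ 6 * s := hCA6.trans (by linarith)
  have h7 : (0:ℝ) ≤ 12 * d * C₁ * s := by positivity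
  linarith

end Pool.Agent.Mob.H33
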